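import Pool.Agent.Lib.MP_573991_co.Cert

namespace Pool.Agent.Results.MP_573991_co.KG83

open Pool.Agent.Lib.MP_573991_co

/-- Every orientation of the Kneser graph `KG(8,3)` leaves some shortest odd cycle
non-alternating. -/
theorem result :
    ∀ D : {s : Finset (Fin 8) // s.card = 3} → {s : Finset (Fin 8) // s.card = 3} → Prop,
      IsOrientation (kneser 8 3) D →
        ∃ (v : {s : Finset (Fin 8) // s.card = 3}) (c : (kneser 8 3).Walk v v),
          IsShortestOddCycle (kneser 8 3) c ∧ ¬ IsAlternating D c := by
  intro D hD
  by_contra hcon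
  push Not at hcon
  exact no_orientation_of_run cert cert_ok D hD hcon

end Pool.Agent.Results.MP_573991_co.KG83
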